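import Pool.Agent.Helper8.EQ.Node
import Pool.Agent.Helper78.FQ.Node
import Pool.Agent.Helper83.FQ.Top
import Pool.Agent.Helper85.FQ.CfSz

/-!
# Project FQ (MP_0f6f3f_an, full question): second half of the assembly

`cf_scale`: the hypothesis of `hC_of_scale` at the node `u`. `half_of`: from the equality case at every node to the isomorphism. `second_half`: from the boundary maps in both directions and the sizes to the isomorphism of the Lie algebras.
-/

set_option autoImplicit false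
set_option linter.unusedSectionVars false

open Filter Topology MeasureTheory Matrix

namespace Pool.Agent.Helper60.FQ

open Pool.Agent.Helper84.NI Pool.Agent.Helper84.GVN Pool.Agent.Helper90.RK
open Pool.Agent.Helper96.RK Pool.Agent.Helper66.FR Pool.Agent.Helper84.FR Pool.Agent.Helper55.FR Pool.Agent.Helper78.BM
open Pool.Agent.Helper96.SA Pool.Agent.Helper96.TO Pool.Agent.Helper69.SLN
open Pool.Agent.Helper35.TZ (autC isAdj_autC)
open Pool.Agent.Helper84.GDL (GD SI)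
open Pool.Agent.Helper45.FQ (pE)
open Pool.Agent.Helper85.KL
open Pool.Agent.Helper55.FQ
open Pool.Agent.Helper77.FQ (eaG)
open Pool.Agent.Helper25.EN (EQout fq_alg)
open Pool.Agent.Helper83.FQ (sc_node gk_tw ucx_pd Sizes coord ch)
open Pool.Agent.Helper87.FQ (lsub)

variable {L L' : Type} [LieRing L] [LieAlgebra ℝ L] [LieRing L'] [LieAlgebra ℝ L'] {N N' : ℕ} {r : ℕ}
  {θ : L ≃ₗ⁅ℝ⁆ L} {θ' : L' ≃ₗ⁅ℝ⁆ L'} {b : Module.Basis (Fin N) ℝ L} {b' : Module.Basis (Fin N') ℝ L'}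
  {A : Submodule ℝ L} {A' : Submodule ℝ L'} {τ : Module.Dual ℝ A ≃ₗ[ℝ] A} {τ' : Module.Dual ℝ A' ≃ₗ[ℝ] A'}
  {al : Fin r → Module.Dual ℝ A} {al' : Fin r → Module.Dual ℝ A'} {W : Fin r → A} {W' : Fin r → A'}
  {D : GD (autC b) (Fin r)} {D' : GD (autC b') (Fin r)} [MeasurableSpace (autC b)] [BorelSpace (autC b)] [MeasurableSpace (autC b')] [BorelSpace (autC b')]
  {Γ : Subgroup (autC b)} {Λ : Subgroup (autC b')} [Countable Γ] [Countable Λ]
  {X : Type} [MeasurableSpace X] [MulAction (autC b) X] [MeasurableConstSMul (autC b) X] {μ : Measure X}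
  [SMulInvariantMeasure (autC b) X μ] [IsProbabilityMeasure μ] {a : Cocy (autC b) X Γ} {E : Emb Γ Λ}
  {X' : Type} [MeasurableSpace X'] [MulAction (autC b') X'] [MeasurableConstSMul (autC b') X'] {μ' : Measure X'}
  [SMulInvariantMeasure (autC b') X' μ'] [IsProbabilityMeasure μ'] {a' : Cocy (autC b') X' Λ} {E' : Emb Λ Γ}

omit [MeasurableSpace (autC b')] [BorelSpace (autC b')] in
/-- **The hypothesis of `hC_of_scale` at the node `u`.** -/
theorem cf_scale (C : Cf θ θ' A A' τ τ' al al' W W' D D' μ a E) (e : Fin r ≃ Fin r) {f : Fin r → ℝ → ℝ}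
    (hl : SizeMap (pE E) (gG D Γ) (fun k i => gG D' Λ k (e i)) f) (u : Fin r)
    (hB : ∃ B : BMap μ a E ((gp D' Λ C.hf').reg (Finset.univ.erase (e u))) (D'.pd (e u) Λ) (wn D u), B.p = 1)
    {R : ℝ} (hR : ∀ i t, 0 ≤ t → |f i t - t| ≤ R) :
    ∃ (m : ℕ → ℝ) (c : ℝ), ∀ v : A, (∃ t : {k : Fin r // k ≠ u} → ℝ, v = ∑ k, t k • τ (al k)) → (∀ i, i ≠ u → 0 ≤ al i v) →
      ∀ᶠ n : ℕ in (hyperfilter ℕ : Filter ℕ), |∑ i, D'.top (e u) (e i) * f i (al i v + if i = u then (n : ℝ) else 0) - m n| ≤ c := by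
  have := C.simple
  have hN : Nontrivial (Fin r) := Fin.nontrivial_iff_two_le.2 C.h2
  have hE := Pool.Agent.Helper78.FQ.erg_node C u
  have hs : Sizes μ a E D.mu (fun k i => gG D' Λ k (e i)) f := Pool.Agent.Helper85.FQ.cf_sizes C hl
  have hreg : ∀ n, Tendsto (fun γ : Λ => D'.mu (Λ.subtype γ) (e u)) (((gp D' Λ C.hf').reg (Finset.univ.erase (e u))).F n) atTop :=
    Pool.Agent.Helper78.FQ.reg_F C.hf' (e u)
  have hw : wn D u = fun n : ℕ => eaG (isAdj_autC b) W (Pi.single u (n : ℝ)) := funext fun n => C.G.ea _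
  obtain ⟨B, hB1⟩ := hB
  revert B
  rw [hw] at hE ⊢
  intro B hB1
  refine sc_node C.G.s (isAdj_autC b) C.G.hW (coord C.G) (g1 := D.mu) (fun c hc => ?_) u B hB1 (D'.plf (e u) Λ _ hreg) hE C.cyc.h3
    hs hR (fun i => D'.top (e u) (e i)) fun t => ?_
  · rw [← C.G.ea, D.mu_ea hc]
  · have h1 := gk_tw D' (φ := Λ.subtype) (l := e u) (R := (gp D' Λ C.hf').reg (Finset.univ.erase (e u))) hreg (ucx_pd D' (e u) Λ) t
    have h2 : (fun γ : Λ => Complex.exp (((t * ∑ i, D'.top (e u) (e i) * gG D' Λ γ (e i) : ℝ) : ℂ) * Complex.I)) =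
        ch t fun γ : Λ => D'.tw (e u) (Λ.subtype γ) := by
      funext γ
      have h3 : ∑ i, D'.top (e u) (e i) * gG D' Λ γ (e i) = D'.tw (e u) (Λ.subtype γ) :=
        Equiv.sum_comp e fun i => D'.top (e u) i * D'.mu (γ : autC b') i
      rw [h3]
      rfl
    rw [← h2] at h1
    exact ⟨_, h1⟩

omit [MeasurableSpace (autC b')] [BorelSpace (autC b')] in
/-- **Second half**, from the equality case at every node. -/
theorem half_of (C : Cf θ θ' A A' τ τ' al al' W W' D D' μ a E) (e : Fin r ≃ Fin r) {f : Fin r → ℝ → ℝ}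
    (hl : SizeMap (pE E) (gG D Γ) (fun k i => gG D' Λ k (e i)) f)
    (hB : ∀ u, ∃ B : BMap μ a E ((gp D' Λ C.hf').reg (Finset.univ.erase (e u))) (D'.pd (e u) Λ) (wn D u), B.p = 1)
    (heq : ∀ u, EQout C.G.s (Pool.Agent.Helper68.FQ.SD.reindex C.G'.s e) W (fun i => W' (e i)) f u) : Nonempty (L ≃ₗ⁅ℝ⁆ L') := by
  have := C.simple
  have := C.simple'
  have hN : Nontrivial (Fin r) := Fin.nontrivial_iff_two_le.2 C.h2
  have h1 : ∀ u k, ∑ i, D'.top (e u) (e i) * al' (e i) (τ' (al' (e k))) = ∑ i, D'.top (e u) i * al' i (τ' (al' (e k))) := fun u k =>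
    Equiv.sum_comp e fun i => D'.top (e u) i * al' i (τ' (al' (e k)))
  obtain ⟨ψ, -⟩ := fq_alg (f := f) C.G.cmb (Pool.Agent.Helper68.FQ.Cmb.reindex C.G'.cmb e) (fun u k => C.G.hW k u) (fun u k => by
      rw [C.G'.hW]
      simp only [e.apply_eq_iff_eq]) heq (fun u i => D'.top (e u) (e i)) (fun u k hk => by
      rw [h1]
      exact C.G'.top0 _ _ fun h => hk (e.injective h)) (fun u => by
      rw [h1]
      exact C.G'.top1 _) (fun hR u => by
      obtain ⟨R, hR⟩ := hR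
      exact ⟨hyperfilter ℕ, inferInstance, Nat.hyperfilter_le_atTop, cf_scale C e hl u (hB u) hR⟩)
  exact ⟨ψ⟩

/-- **Second half.** -/
theorem second_half (C : Cf θ θ' A A' τ τ' al al' W W' D D' μ a E) (C' : Cf θ' θ A' A τ' τ al' al W' W D' D μ' a' E')
    {e : Fin r ≃ Fin r} {f f' : Fin r → ℝ → ℝ} (hl : Loc (pE E) (gG D Γ) (fun k i => gG D' Λ k (e i)) f f')
    (B : ∀ u, ∃ B : BMap μ a E ((gp D' Λ C.hf').reg (Finset.univ.erase (e u))) (D'.pd (e u) Λ) (wn D u), B.p = 1)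
    (B' : ∀ u, ∃ B : BMap μ' a' E' ((gp D Γ C'.hf').reg (Finset.univ.erase (e.symm u))) (D.pd (e.symm u) Γ) (wn D' u), B.p = 1) :
    Nonempty (L ≃ₗ⁅ℝ⁆ L') := by
  have hd : ∀ u, Module.finrank ℝ (lsub A (W u)) = Module.finrank ℝ (lsub A' (W' (e u))) := fun u => by
    obtain ⟨B1, -⟩ := B u
    obtain ⟨B2, -⟩ := B' (e u)
    refine le_antisymm (Pool.Agent.Helper78.FQ.dim_node C u (e u) B1) ?_
    have h1 := Pool.Agent.Helper78.FQ.dim_node C' (e u) (e.symm (e u)) B2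
    rwa [e.symm_apply_apply] at h1
  refine half_of C e hl.size B fun u => ?_
  obtain ⟨B1, -⟩ := B u
  exact Pool.Agent.Helper8.EQ.eq_node C e hl.size u B1 (hd u)

end Pool.Agent.Helper60.FQ
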